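import Mathlib

open Finsupp

namespace Pool.Agent.H.MP_21eb72_gt

abbrev C (A : Type) := List A →₀ ℤ

section
variable {A B : Type}

noncomputable def e (l : List A) : C A := single l 1

noncomputable def lc {M : Type} [AddCommGroup M] (v : List A → M) : C A →ₗ[ℤ] M :=
  linearCombination ℤ v

@[simp] lemma lc_e {M : Type} [AddCommGroup M] (v : List A → M) (l : List A) :
    lc v (e l) = v l := by simp [lc, e]

noncomputable def Sp (T : Set (List A)) : Submodule ℤ (C A) := Submodule.span ℤ (e '' T)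

lemma e_mem {T : Set (List A)} {l : List A} (h : l ∈ T) : e l ∈ Sp T :=
  Submodule.subset_span ⟨l, h, rfl⟩

lemma Sp_map {M : Type} [AddCommGroup M] {T : Set (List A)} (f : C A →ₗ[ℤ] M) (N : Submodule ℤ M)
    (h : ∀ l ∈ T, f (e l) ∈ N) {c : C A} (hc : c ∈ Sp T) : f c ∈ N :=
  (Submodule.span_le (p := N.comap f)).2 (by rintro _ ⟨l, hl, rfl⟩; exact h l hl) hc

lemma Sp_eq {M : Type} [AddCommGroup M] {T : Set (List A)} (f g : C A →ₗ[ℤ] M)
    (h : ∀ l ∈ T, f (e l) = g (e l)) {c : C A} (hc : c ∈ Sp T) : f c = g c :=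
  sub_eq_zero.1 (Sp_map (f - g) ⊥ (fun l hl => sub_eq_zero.2 (h l hl)) hc)

lemma Sp_mono {T T' : Set (List A)} (h : T ⊆ T') : Sp T ≤ Sp T' :=
  Submodule.span_mono (Set.image_mono h)

lemma Sp_univ (c : C A) : c ∈ Sp Set.univ := by
  induction c using Finsupp.induction_linear with
  | zero => exact zero_mem _
  | add a b ha hb => exact add_mem ha hb
  | single l n =>
    have := Submodule.smul_mem _ n (e_mem (T := Set.univ) (l := l) trivial)
    simpa [e] using this

lemma ext_e {M : Type} [AddCommGroup M] {f g : C A →ₗ[ℤ] M} (h : ∀ l, f (e l) = g (e l)) :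
    f = g := by
  ext l; exact h l

noncomputable def cone (a : A) : C A →ₗ[ℤ] C A := lc fun l => e (a :: l)

noncomputable def bd : List A → C A
  | [] => 0
  | a :: l => e l - cone a (bd l)

noncomputable def d : C A →ₗ[ℤ] C A := lc bd

noncomputable def mp (f : A → B) : C A →ₗ[ℤ] C B := lc fun l => e (l.map f)

@[simp] lemma cone_e (a : A) (l : List A) : cone a (e l) = e (a :: l) := lc_e _ _
@[simp] lemma mp_e (f : A → B) (l : List A) : mp f (e l) = e (l.map f) := lc_e _ _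
lemma d_nil : d (e ([] : List A)) = 0 := lc_e _ _
lemma d_cons (a : A) (l : List A) : d (e (a :: l)) = e l - cone a (d (e l)) := by
  simp [d, bd]

lemma d_cone (a : A) (c : C A) : d (cone a c) = c - cone a (d c) :=
  DFunLike.congr_fun (ext_e (f := d ∘ₗ cone a) (g := LinearMap.id - cone a ∘ₗ d)
    fun l => by simp [d_cons]) c

lemma dd (c : C A) : d (d c) = 0 :=
  DFunLike.congr_fun (ext_e (f := d ∘ₗ d) (g := 0) fun l => by
    induction l with
    | nil => simp [d_nil]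
    | cons a l ih =>
      simp only [LinearMap.comp_apply, LinearMap.zero_apply] at ih ⊢
      simp [d_cons, d_cone, ih]) c

lemma mp_cone (f : A → B) (a : A) (c : C A) : mp f (cone a c) = cone (f a) (mp f c) :=
  DFunLike.congr_fun (ext_e (f := mp f ∘ₗ cone a) (g := cone (f a) ∘ₗ mp f) fun l => by simp) c

lemma mp_d (f : A → B) (c : C A) : mp f (d c) = d (mp f c) :=
  DFunLike.congr_fun (ext_e (f := mp f ∘ₗ d) (g := d ∘ₗ mp f) fun l => by
    induction l with
    | nil => simp [d_nil]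
    | cons a l ih =>
      simp only [LinearMap.comp_apply, mp_e] at ih ⊢
      simp [d_cons, mp_cone, ih]) c

lemma d_mem (l : List A) : d (e l) ∈ Sp {m | m.Sublist l ∧ m.length + 1 = l.length} := by
  induction l with
  | nil => simp [d_nil]
  | cons a l ih =>
    rw [d_cons]
    refine sub_mem (e_mem ⟨by simp, rfl⟩) (Sp_map _ _ (fun m hm => ?_) ih)
    rw [cone_e]
    exact e_mem ⟨hm.1.cons₂ a, by simp [hm.2]⟩

noncomputable def pr (f g : A → B) : List A → C B
  | [] => 0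
  | a :: l => cone (f a) (e ((a :: l).map g) - pr f g l)

noncomputable def P (f g : A → B) : C A →ₗ[ℤ] C B := lc (pr f g)

lemma P_cone (f g : A → B) (a : A) (c : C A) :
    P f g (cone a c) = cone (f a) (cone (g a) (mp g c) - P f g c) :=
  DFunLike.congr_fun (ext_e (f := P f g ∘ₗ cone a)
    (g := cone (f a) ∘ₗ (cone (g a) ∘ₗ mp g - P f g)) fun l => by simp [P, pr]) c

lemma prism (f g : A → B) (c : C A) : d (P f g c) + P f g (d c) = mp g c - mp f c :=
  DFunLike.congr_fun (ext_e (f := d ∘ₗ P f g + P f g ∘ₗ d) (g := mp g - mp f) fun l => by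
    induction l with
    | nil => simp [d_nil, P, pr]
    | cons a l ih =>
      simp only [LinearMap.comp_apply, LinearMap.add_apply, LinearMap.sub_apply] at ih ⊢
      rw [← cone_e, P_cone, d_cone a, map_sub (P f g), P_cone, mp_cone, mp_cone, d_cone,
        map_sub d, d_cone, eq_sub_of_add_eq ih, mp_d]
      simp only [map_sub]
      abel) c

lemma P_mem (f g : A → B) (l : List A) : P f g (e l) ∈
    Sp {m | m.length = l.length + 1 ∧ ∀ y ∈ m, ∃ x ∈ l, y = f x ∨ y = g x} := by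
  induction l with
  | nil => simp [P, pr]
  | cons a l ih =>
    simp only [P, lc_e, pr, map_sub, cone_e] at ih ⊢
    refine sub_mem (e_mem ⟨by simp, ?_⟩) (Sp_map _ _ (fun m hm => ?_) ih)
    · intro y hy
      rcases List.mem_cons.1 hy with rfl | hy
      · exact ⟨a, by simp, Or.inl rfl⟩
      · obtain ⟨x, hx, rfl⟩ := List.mem_map.1 hy
        exact ⟨x, hx, Or.inr rfl⟩
    · rw [cone_e]
      refine e_mem ⟨by simp [hm.1], fun y hy => ?_⟩
      rcases List.mem_cons.1 hy with rfl | hy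
      · exact ⟨a, by simp, Or.inl rfl⟩
      · obtain ⟨x, hx, h⟩ := hm.2 y hy
        exact ⟨x, by simp [hx], h⟩

noncomputable def θ (t : A → A) (i : ℕ) : Module.End ℤ (C A) :=
  if Even i then ∑ k ∈ Finset.range 5, (mp t : Module.End ℤ (C A)) ^ k else mp t - 1

lemma mp_pow (t : A → A) (k : ℕ) : (mp t : Module.End ℤ (C A)) ^ k = mp t^[k] := by
  induction k with
  | zero => exact ext_e fun l => by simp
  | succ k ih => rw [pow_succ, ih]; exact ext_e fun l => by simp

lemma θθ {t : A → A} (h : t^[5] = id) (i : ℕ) : θ t (i + 1) * θ t i = 0 := by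
  have : (mp t : Module.End ℤ (C A)) ^ 5 - 1 = 0 := by
    rw [mp_pow, h, sub_eq_zero]; exact ext_e fun l => by simp
  by_cases c : Even i <;> simp only [θ, Nat.even_add_one, c, not_true, not_false_iff, if_true,
    if_false, mul_geom_sum, geom_sum_mul, this]

lemma θ_nat {t : A → A} {u : B → B} {T : Set (List A)} (hT : ∀ l ∈ T, l.map t ∈ T)
    (F : C A →ₗ[ℤ] C B) (h : ∀ l ∈ T, F (mp t (e l)) = mp u (F (e l))) (i : ℕ) {c : C A}
    (hc : c ∈ Sp T) : F (θ t i c) = θ u i (F c) ∧ θ t i c ∈ Sp T := by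
  have a : ∀ c ∈ Sp T, mp t c ∈ Sp T := fun c hc =>
    Sp_map _ _ (fun l hl => by rw [mp_e]; exact e_mem (hT l hl)) hc
  have b : ∀ c ∈ Sp T, F (mp t c) = mp u (F c) := fun c hc =>
    Sp_eq (F ∘ₗ mp t) (mp u ∘ₗ F) h hc
  have p : ∀ k : ℕ, F (((mp t : Module.End ℤ (C A)) ^ k) c) =
      ((mp u : Module.End ℤ (C B)) ^ k) (F c) ∧ ((mp t : Module.End ℤ (C A)) ^ k) c ∈ Sp T := by
    intro k
    induction k with
    | zero => exact ⟨rfl, hc⟩
    | succ k ih =>
      simp only [pow_succ', Module.End.mul_apply]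
      exact ⟨by rw [b _ ih.2, ih.1], a _ ih.2⟩
  unfold θ
  split_ifs
  · simp only [LinearMap.sum_apply, map_sum, p]
    exact ⟨trivial, sum_mem fun k _ => (p k).2⟩
  · simp only [LinearMap.sub_apply, map_sub, b c hc, Module.End.one_apply]
    exact ⟨trivial, sub_mem (a c hc) hc⟩

lemma exact {t : A → A} {T : Set (List A)} (hT : ∀ l ∈ T, l.map t ∈ T) (ph : List A → ZMod 5)
    (hp : ∀ l ∈ T, ph (l.map t) = ph l + 1) (i : ℕ) {c : C A} (hc : c ∈ Sp T)
    (h : θ t i c = 0) : ∃ b ∈ Sp T, c = θ t (i + 1) b := by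
  let π : ZMod 5 → C A →ₗ[ℤ] C A := fun k => lc fun l => if ph l = k then e l else 0
  let τ : Module.End ℤ (C A) := mp t
  have a : ∀ c ∈ Sp T, τ c ∈ Sp T := fun c hc =>
    Sp_map _ _ (fun l hl => by rw [mp_e]; exact e_mem (hT l hl)) hc
  have p1 : ∀ k, ∀ c ∈ Sp T, π k c ∈ Sp T := fun k c hc => Sp_map _ _ (fun l hl => by
    rw [lc_e]; split_ifs; exacts [e_mem hl, zero_mem _]) hc
  have p2 : ∀ k, ∀ c ∈ Sp T, π (k + 1) (τ c) = τ (π k c) := fun k c hc =>
    Sp_eq (π (k + 1) ∘ₗ τ) (τ ∘ₗ π k) (fun l hl => by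
      simp only [LinearMap.comp_apply, τ, π, mp_e, lc_e, hp l hl, add_left_inj]
      split_ifs <;> simp) hc
  have p3 : c = π 0 c + π 1 c + π 2 c + π 3 c + π 4 c :=
    DFunLike.congr_fun (ext_e (f := LinearMap.id) (g := π 0 + π 1 + π 2 + π 3 + π 4) fun l => by
      simp only [LinearMap.add_apply, π, lc_e, LinearMap.id_apply]
      generalize ph l = x
      rcases (by decide : ∀ x : ZMod 5, x = 0 ∨ x = 1 ∨ x = 2 ∨ x = 3 ∨ x = 4) x with
        rfl | rfl | rfl | rfl | rfl <;> simp (decide := true)) c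
  have q0 := p2 0
  have q1 := p2 1
  have q2 := p2 2
  have q3 := p2 3
  have q4 := p2 4
  simp only [show (0 + 1 : ZMod 5) = 1 from rfl, show (1 + 1 : ZMod 5) = 2 from rfl,
    show (2 + 1 : ZMod 5) = 3 from rfl, show (3 + 1 : ZMod 5) = 4 from rfl,
    show (4 + 1 : ZMod 5) = 0 from rfl] at q0 q1 q2 q3 q4
  by_cases ev : Even i <;> simp only [θ, Nat.even_add_one, ev, not_true, not_false_iff, if_true,
    if_false, Finset.sum_range_succ, Finset.sum_range_zero, zero_add, pow_succ', pow_zero,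
    mul_one, LinearMap.add_apply, LinearMap.sub_apply, Module.End.mul_apply,
    Module.End.one_apply] at h ⊢
  · have := congrArg (π 0) h
    change π 0 (c + τ c + τ (τ c) + τ (τ (τ c)) + τ (τ (τ (τ c)))) = _ at this
    simp only [map_add, map_zero] at this
    rw [q4 _ hc, q4 _ (a _ hc), q3 _ hc, q4 _ (a _ (a _ hc)), q3 _ (a _ hc), q2 _ hc,
      q4 _ (a _ (a _ (a _ hc))), q3 _ (a _ (a _ hc)), q2 _ (a _ hc), q1 _ hc] at this
    refine ⟨-(π 4 c + (π 3 c + τ (π 3 c)) + (π 2 c + τ (π 2 c) + τ (τ (π 2 c))) +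
      (π 1 c + τ (π 1 c) + τ (τ (π 1 c)) + τ (τ (τ (π 1 c))))), ?_, ?_⟩
    · have := p1 1 c hc
      have := p1 2 c hc
      have := p1 3 c hc
      have := p1 4 c hc
      refine neg_mem (add_mem (add_mem (add_mem ?_ (add_mem ?_ ?_)) (add_mem (add_mem ?_ ?_) ?_))
        (add_mem (add_mem (add_mem ?_ ?_) ?_) ?_)) <;> repeat (first | assumption | apply a)
    · change c = τ _ - _
      simp only [map_neg, map_add]
      rw [← sub_eq_zero, ← this]
      nth_rewrite 1 [p3]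
      abel
  · have h : τ c = c := sub_eq_zero.1 h
    refine ⟨π 0 c, p1 0 c hc, ?_⟩
    change c = π 0 c + τ _ + τ (τ _) + τ (τ (τ _)) + τ (τ (τ (τ _)))
    rw [← q0 _ hc, h, ← q1 _ hc, h, ← q2 _ hc, h, ← q3 _ hc, h]
    exact p3

end

section
variable {A Q : Type} [PartialOrder Q] [DecidableEq Q]

noncomputable def cn (q : Q) : C Q →ₗ[ℤ] C Q :=
  lc fun m => if m.head? = some q then 0 else e (q :: m)

lemma cn_cone (q : Q) (c : C Q) : cn q (cone q c) = 0 :=
  DFunLike.congr_fun (ext_e (f := cn q ∘ₗ cone q) (g := 0) fun l => by simp [cn]) c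

lemma cn_eq {q : Q} {m : List Q} (h : q ∉ m) : cn q (e m) = e (q :: m) := by
  rw [cn, lc_e, if_neg fun c : m.head? = some q => h (List.mem_of_mem_head? (by simp [c]))]

def Fl (Q0 : Set Q) (k : ℕ) : Set (List Q) :=
  {m | m.length = k ∧ m.Pairwise (· > ·) ∧ ∀ v ∈ m, v ∈ Q0}

lemma lt_of {q : Q} {m : List Q} (h : m.Pairwise (· > ·)) (b : ∀ v ∈ m, v ≤ q)
    (c : m.head? ≠ some q) : ∀ v ∈ m, v < q := by
  cases m with
  | nil => simp
  | cons a m =>
    have ha : a < q := lt_of_le_of_ne (b a (by simp)) fun h => c (by simp [h])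
    intro v hv
    rcases List.mem_cons.1 hv with rfl | hv
    · exact ha
    · exact ((List.pairwise_cons.1 h).1 v hv).trans ha

lemma d_cn {q : Q} {m : List Q} (h : m.Pairwise (· > ·)) (b : ∀ v ∈ m, v ≤ q) :
    d (cn q (e m)) = e m - cn q (d (e m)) := by
  by_cases c : m.head? = some q
  · obtain ⟨m, rfl⟩ := List.head?_eq_some_iff.1 c
    rw [d_cons, map_sub, cn_cone, cn_eq (m := m) fun k => lt_irrefl _
      ((List.pairwise_cons.1 h).1 q k), ← cone_e, cn_cone]
    simp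
  · have l := lt_of h b c
    rw [cn_eq fun k => lt_irrefl _ (l q k), d_cons]
    congr 1
    exact Sp_eq _ _ (fun m' hm => by
      rw [cn_eq fun k => lt_irrefl _ (l q (hm.1.subset k)), cone_e]) (d_mem m)

noncomputable def S (U : List A → Q) : ℕ → C A →ₗ[ℤ] C Q
  | 0 => lc fun _ => e []
  | k + 1 => lc fun l => cn (U l) (S U k (d (e l)))

theorem dold (t : A → A) (u : Q → Q) (hu : StrictMono u) (hi : Function.Injective u)
    (U : List A → Q) (G : Set (List A)) (Q0 : Set Q) (φ : Q → ZMod 5) (K : ℕ)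
    (Gs : ∀ l ∈ G, ∀ m : List A, m.Sublist l → m ∈ G ∧ U m ≤ U l) (Gt : ∀ l ∈ G, l.map t ∈ G)
    (Ut : ∀ l ∈ G, U (l.map t) = u (U l)) (U0 : ∀ l ∈ G, l ≠ [] → U l ∈ Q0)
    (Qu : ∀ q ∈ Q0, u q ∈ Q0 ∧ φ (u q) = φ q + 1) (hK : Fl Q0 (K + 1) = ∅)
    (a : ℕ → C A) (a0 : a 0 = e []) (a1 : d (a 1) = a 0)
    (aG : ∀ i ≤ K + 1, a i ∈ Sp {l | l ∈ G ∧ l.length = i})
    (ad : ∀ i, 1 ≤ i → i ≤ K → d (a (i + 1)) = θ t i (a i)) : False := by
  have dG : ∀ k, ∀ l ∈ G, l.length = k + 1 →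
      d (e l) ∈ Sp {m | (m ∈ G ∧ m.length = k) ∧ U m ≤ U l} := fun k l hl h =>
    Sp_mono (T' := {m | (m ∈ G ∧ m.length = k) ∧ U m ≤ U l}) (fun m hm =>
      ⟨⟨(Gs l hl m hm.1).1, by have := hm.2; omega⟩, (Gs l hl m hm.1).2⟩) (d_mem l)
  have s1 : ∀ k, ∀ l ∈ G, l.length = k → S U k (e l) ∈ Sp {m | m ∈ Fl Q0 k ∧ ∀ v ∈ m, v ≤ U l} := by
    intro k
    induction k with
    | zero => intro l _ _; rw [S, lc_e]; exact e_mem ⟨⟨rfl, by simp, by simp⟩, by simp⟩
    | succ k ih =>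
      intro l hl h
      rw [S, lc_e]
      refine Sp_map (cn (U l) ∘ₗ S U k) _ (fun m hm => Sp_map (cn (U l)) _ (fun w hw => ?_)
        (ih m hm.1.1 hm.1.2)) (dG k l hl h)
      rw [cn, lc_e]
      split_ifs with c
      · exact zero_mem _
      · have b : ∀ v ∈ w, v ≤ U l := fun v hv => (hw.2 v hv).trans hm.2
        refine e_mem ⟨⟨by simp [hw.1.1], List.pairwise_cons.2 ⟨lt_of hw.1.2.1 b c, hw.1.2.1⟩, ?_⟩, ?_⟩
        · simpa using ⟨U0 l hl (by rintro rfl; simp at h), hw.1.2.2⟩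
        · simpa using b
  have s2 : ∀ k, ∀ l ∈ G, l.length = k + 1 → d (S U (k + 1) (e l)) = S U k (d (e l)) := by
    intro k
    induction k with
    | zero =>
      intro l hl h
      obtain ⟨x, rfl⟩ := List.length_eq_one_iff.1 h
      simp [S, d_cons, d_nil, cn]
    | succ k ih =>
      intro l hl h
      rw [S, lc_e]
      have e1 : d (cn (U l) (S U (k + 1) (d (e l)))) =
          S U (k + 1) (d (e l)) - cn (U l) (d (S U (k + 1) (d (e l)))) :=
        Sp_eq (d ∘ₗ cn (U l) ∘ₗ S U (k + 1)) (S U (k + 1) - cn (U l) ∘ₗ d ∘ₗ S U (k + 1))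
          (fun m hm => Sp_eq (d ∘ₗ cn (U l)) (LinearMap.id - cn (U l) ∘ₗ d) (fun w hw =>
            d_cn hw.1.2.1 fun v hv => (hw.2 v hv).trans hm.2) (s1 _ m hm.1.1 hm.1.2))
          (dG _ l hl h)
      have e2 : d (S U (k + 1) (d (e l))) = S U k (d (d (e l))) :=
        Sp_eq (d ∘ₗ S U (k + 1)) (S U k ∘ₗ d) (fun m hm => ih m hm.1.1 hm.1.2) (dG _ l hl h)
      rw [e1, e2, dd]; simp
  have mc : ∀ q c, mp u (cn q c) = cn (u q) (mp u c) := fun q c =>
    DFunLike.congr_fun (ext_e (f := mp u ∘ₗ cn q) (g := cn (u q) ∘ₗ mp u) fun m => by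
      cases m with
      | nil => simp [cn]
      | cons b m => by_cases c : b = q <;> simp [cn, c, hi.eq_iff]) c
  have s3 : ∀ k, ∀ l ∈ G, l.length = k → S U k (mp t (e l)) = mp u (S U k (e l)) := by
    intro k
    induction k with
    | zero => intro l _ _; simp [S]
    | succ k ih =>
      intro l hl h
      rw [mp_e, S, lc_e, lc_e, mc, Ut l hl, ← mp_e, ← mp_d]
      congr 1
      exact Sp_eq (S U k ∘ₗ mp t) (mp u ∘ₗ S U k) (fun m hm => ih m hm.1.1 hm.1.2) (dG _ l hl h)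
  have Ft : ∀ k, ∀ m ∈ Fl Q0 k, m.map u ∈ Fl Q0 k := fun k m hm =>
    ⟨by simp [hm.1], List.pairwise_map.2 (hm.2.1.imp fun h => hu h), fun v hv => by
      obtain ⟨w, hw, rfl⟩ := List.mem_map.1 hv
      exact (Qu w (hm.2.2 w hw)).1⟩
  have y1 : ∀ i ≤ K + 1, S U i (a i) ∈ Sp (Fl Q0 i) := fun i hi => Sp_map _ _
    (fun l hl => Sp_mono (fun _ h => h.1) (s1 i l hl.1 hl.2)) (aG i hi)
  have y2 : ∀ i ≤ K, d (S U (i + 1) (a (i + 1))) = S U i (d (a (i + 1))) := fun i hi =>
    Sp_eq (d ∘ₗ S U (i + 1)) (S U i ∘ₗ d) (fun l hl => s2 i l hl.1 hl.2) (aG _ (by omega))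
  have dF : ∀ k, ∀ c ∈ Sp (Fl Q0 (k + 1)), d c ∈ Sp (Fl Q0 k) := fun k c hc =>
    Sp_map _ _ (fun l hl => Sp_mono (T' := Fl Q0 k) (fun m hm =>
      ⟨by have := hm.2; have := hl.1; omega,
      hl.2.1.sublist hm.1, fun v hv => hl.2.2 v (hm.1.subset hv)⟩) (d_mem l)) hc
  have dθ : ∀ i c, d (θ u i c) = θ u i (d c) := fun i c =>
    (θ_nat (T := Set.univ) (fun _ _ => trivial) d (fun l _ => (mp_d _ _).symm) i
      (Sp_univ c)).1
  have key : ∀ i, i ≤ K → ∃ c : C Q, ∃ b ∈ Sp (Fl Q0 (i + 1)),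
      S U (i + 1) (a (i + 1)) = d c + θ u (i + 2) b := by
    intro i hi
    induction hi using Nat.decreasingInduction with
    | self =>
      have := y1 _ le_rfl
      rw [hK, Sp, Set.image_empty, Submodule.span_empty, Submodule.mem_bot] at this
      exact ⟨0, 0, zero_mem _, by simp [this]⟩
    | of_succ i hi ih =>
      obtain ⟨c, b, hb, h⟩ := ih
      have e1 := congrArg d h
      rw [y2 _ hi, ad _ (by omega) hi, (θ_nat (T := {l | l ∈ G ∧ l.length = i + 1})
        (fun l hl => ⟨Gt l hl.1, by simp [hl.2]⟩) _ (fun l hl => s3 _ l hl.1 hl.2) _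
        (aG _ (by omega))).1, map_add, dd, zero_add, dθ,
        show θ u (i + 1 + 2) = θ u (i + 1) by simp only [θ, Nat.even_add_one, not_not,
          add_assoc (i + 1) 1 1 ▸ Nat.even_add_one (n := i + 1 + 1)], ← sub_eq_zero,
        ← map_sub] at e1
      obtain ⟨b', hb', h'⟩ := exact (Ft (i + 1)) (fun m => match m with | [] => 0 | q :: _ => φ q)
        (fun m hm => by
          cases m with
          | nil => exact absurd hm.1 (by simp)
          | cons q m => exact (Qu q (hm.2.2 q (by simp))).2) _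
        (sub_mem (y1 _ (by omega)) (dF _ b hb)) e1
      exact ⟨b, b', hb', by rw [← h']; abel⟩
  obtain ⟨c, b, hb, h⟩ := key 0 K.zero_le
  have e1 := congrArg d h
  rw [y2 _ K.zero_le, a1, a0, map_add, dd, zero_add, dθ, S, lc_e] at e1
  have e2 : θ u 2 (d b) = (5 : ℤ) • d b :=
    Sp_eq (θ u 2) ((5 : ℤ) • LinearMap.id) (fun l hl => by
      obtain rfl := List.length_eq_zero_iff.1 hl.1
      simp only [θ, even_two, if_true, mp_pow, LinearMap.sum_apply, mp_e, List.map_nil]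
      simp) (dF 0 b hb)
  have e3 := DFunLike.congr_fun (e1.trans e2) []
  simp [e] at e3
  omega

end

end Pool.Agent.H.MP_21eb72_gt
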