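import Pool.Agent.H.MP_21eb72_gt.A

open Finsupp

namespace Pool.Agent.H.MP_21eb72_gt

section
variable {A : Type} [PseudoMetricSpace A]

def Gd (Y : Set A) (δ : ℝ) (k : ℕ) : Set (List A) :=
  {l | l.length = k ∧ (∀ x ∈ l, x ∈ Y) ∧ ∀ x ∈ l, ∀ y ∈ l, dist x y ≤ δ}

lemma fill {Y Y' : Set A} {δ η : ℝ} (hδ : 0 ≤ δ) (hη : 0 ≤ η) (h : ℕ → A → A) (M : ℕ) (p : A)
    (h0 : h 0 = id) (hM : h M = fun _ => p) (hp : p ∈ Y')
    (hY : ∀ s ≤ M, ∀ x ∈ Y, h s x ∈ Y')
    (h1 : ∀ s ≤ M, ∀ x y, dist (h s x) (h s y) ≤ dist x y)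
    (h2 : ∀ s < M, ∀ x ∈ Y, dist (h s x) (h (s + 1) x) ≤ η) {k : ℕ} {c : C A}
    (hc : c ∈ Sp (Gd Y δ k)) (dc : d c = 0) : ∃ b ∈ Sp (Gd Y' (δ + η) (k + 1)), d b = c := by
  have a : ∀ s ≤ M, ∃ b ∈ Sp (Gd Y' (δ + η) (k + 1)), d b = mp (h s) c - c := by
    intro s hs
    induction s with
    | zero =>
      refine ⟨0, zero_mem _, ?_⟩
      rw [h0, show mp (id : A → A) = LinearMap.id from ext_e fun l => by simp]; simp
    | succ s ih =>
      obtain ⟨b, hb, e1⟩ := ih (by omega)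
      refine ⟨b + P (h s) (h (s + 1)) c, add_mem hb (Sp_map _ _ (fun l hl => ?_) hc), ?_⟩
      · refine Sp_mono ?_ (P_mem _ _ l)
        rintro m ⟨m1, m2⟩
        refine ⟨by rw [m1, hl.1], fun y hy => ?_, fun y hy z hz => ?_⟩
        · obtain ⟨x, hx, rfl | rfl⟩ := m2 y hy
          exacts [hY _ (by omega) x (hl.2.1 x hx), hY _ hs x (hl.2.1 x hx)]
        · obtain ⟨x, hx, e2⟩ := m2 y hy
          obtain ⟨w, hw, e3⟩ := m2 z hz
          have a1 := hl.2.2 x hx w hw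
          have a2 := h1 s (by omega) x w
          have a3 := h1 (s + 1) hs x w
          have a4 := h2 s (by omega) x (hl.2.1 x hx)
          have a5 := h2 s (by omega) w (hl.2.1 w hw)
          have a6 := dist_triangle (h s x) (h s w) (h (s + 1) w)
          have a7 := dist_triangle_left (h (s + 1) x) (h s w) (h s x)
          rcases e2 with rfl | rfl <;> rcases e3 with rfl | rfl <;> linarith
      · have := prism (h s) (h (s + 1)) c
        rw [dc, map_zero, add_zero] at this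
        rw [map_add, e1, this]; abel
  obtain ⟨b, hb, e1⟩ := a M le_rfl
  refine ⟨cone p (mp (h M) c) - b, sub_mem (Sp_map (cone p ∘ₗ mp (h M)) _ (fun l hl => ?_) hc) hb,
    ?_⟩
  · have : ∀ x ∈ p :: l.map (h M), x = p := by simp [hM]
    simp only [LinearMap.comp_apply, mp_e, cone_e]
    refine e_mem ⟨by simp [hl.1], fun x hx => this x hx ▸ hp, fun x hx y hy => ?_⟩
    rw [this x hx, this y hy, dist_self]; positivity
  · rw [map_sub, e1, d_cone, ← mp_d, dc]; simp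

end

def X (n i : ℕ) : Set (Fin n → ℂ) := {z | ∑ j, ‖z j‖ = 1 ∧ ∀ j : Fin n, i ≤ j → z j = 0}

lemma X_norm {n i : ℕ} {z : Fin n → ℂ} (h : z ∈ X n i) : ‖z‖ ≤ 1 :=
  (pi_norm_le_iff_of_nonneg zero_le_one).2 fun j =>
    h.1 ▸ Finset.single_le_sum (f := fun j => ‖z j‖) (fun _ _ => norm_nonneg _) (Finset.mem_univ j)

lemma fillX {n : ℕ} (i : Fin n) {δ η : ℝ} (hδ : 0 ≤ δ) (hη : 0 < η) {k : ℕ}
    {c : C (Fin n → ℂ)} (hc : c ∈ Sp (Gd (X n i) δ k)) (dc : d c = 0) :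
    ∃ b ∈ Sp (Gd (X n (i + 1)) (δ + η) (k + 1)), d b = c := by
  obtain ⟨M, hM⟩ := exists_nat_gt (2 / η)
  have M0 : (0 : ℝ) < M := lt_trans (by positivity) hM
  let p : Fin n → ℂ := Pi.single i 1
  have s1 : ∀ s ≤ M, (s : ℝ) / M ≤ 1 := fun s hs => (div_le_one M0).2 (by exact_mod_cast hs)
  have hY : ∀ r : ℝ, 0 ≤ r → r ≤ 1 → ∀ x ∈ X n i, (1 - r) • x + r • p ∈ X n (i + 1) := by
    intro r r0 r1 x hx
    refine ⟨?_, fun j hj => ?_⟩
    · have : ∀ j, ‖((1 - r) • x + r • p) j‖ = (1 - r) * ‖x j‖ + if j = i then r else 0 := by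
        intro j
        by_cases c : j = i
        · subst c; simp [p, hx.2 j le_rfl, abs_of_nonneg r0]
        · simp only [p, Pi.add_apply, Pi.smul_apply, Pi.single_eq_of_ne c, smul_zero, add_zero,
            norm_smul, if_neg c, Real.norm_eq_abs, abs_of_nonneg (sub_nonneg.2 r1)]
      simp only [this, Finset.sum_add_distrib, ← Finset.mul_sum, hx.1]
      simp
    · have c : j ≠ i := by rintro rfl; omega
      simp [p, Pi.single_eq_of_ne c, hx.2 j (by omega)]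
  have p1 : ‖p‖ = 1 := by simp [p, Pi.norm_single]
  refine fill (Y' := X n (i + 1)) hδ hη.le (fun s x => (1 - (s : ℝ) / M) • x + ((s : ℝ) / M) • p) M p
    (by ext; simp) (by ext; simp [M0.ne']) (And.intro ?_ fun j hj => ?_)
    (fun s hs => hY _ (by positivity) (s1 s hs)) (fun s hs x y => ?_) (fun s hs x hx => ?_) hc dc
  · rw [Finset.sum_eq_single i] <;> simp +contextual [p, Pi.single_apply]
  · have c : j ≠ i := by rintro rfl; omega
    simp [p, Pi.single_eq_of_ne c]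
  · rw [dist_add_right, dist_smul₀, Real.norm_eq_abs, abs_of_nonneg (sub_nonneg.2 (s1 s hs))]
    have : (0 : ℝ) ≤ s / M := by positivity
    nlinarith [dist_nonneg (x := x) (y := y)]
  · rw [dist_eq_norm, show (1 - (s : ℝ) / M) • x + ((s : ℝ) / M) • p -
      ((1 - ((s + 1 : ℕ) : ℝ) / M) • x + (((s + 1 : ℕ) : ℝ) / M) • p) = (1 / M : ℝ) • (x - p) by
        push_cast; module, norm_smul, Real.norm_eq_abs, abs_of_pos (by positivity)]
    have := norm_sub_le x p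
    have := X_norm hx
    rw [div_lt_iff₀ hη] at hM
    rw [div_mul_eq_mul_div, div_le_iff₀ M0]
    linarith

lemma Gd_rot {n i k : ℕ} {δ : ℝ} {ω : ℂ} (hω : ‖ω‖ = 1) :
    ∀ l ∈ Gd (X n i) δ k, l.map (ω • ·) ∈ Gd (X n i) δ k := by
  intro l hl
  refine ⟨by simp [hl.1], fun x hx => ?_, fun x hx y hy => ?_⟩
  · obtain ⟨z, hz, rfl⟩ := List.mem_map.1 hx
    have := hl.2.1 z hz
    exact ⟨by simpa [hω] using this.1, fun j hj => by simp [this.2 j hj]⟩
  · obtain ⟨z, hz, rfl⟩ := List.mem_map.1 hx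
    obtain ⟨w, hw, rfl⟩ := List.mem_map.1 hy
    rw [dist_smul₀, hω, one_mul]; exact hl.2.2 z hz w hw

lemma chains {n : ℕ} {ω : ℂ} (hω : ω ^ 5 = 1) {η : ℝ} (hη : 0 < η) (K : ℕ) (hK : K + 1 ≤ n) :
    ∃ a : ℕ → C (Fin n → ℂ), a 0 = e [] ∧ d (a 1) = a 0 ∧
      (∀ i ≤ K + 1, a i ∈ Sp (Gd (X n i) (i * η) i)) ∧
      ∀ i, 1 ≤ i → i ≤ K → d (a (i + 1)) = θ (ω • ·) i (a i) := by
  have n1 : ‖ω‖ = 1 := Complex.norm_eq_one_of_pow_eq_one hω (by norm_num)
  have t5 : (fun z : Fin n → ℂ => ω • z)^[5] = id := by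
    ext1 z; rw [smul_iterate, hω]; simp
  have st : ∀ i : ℕ, i < n → ∀ c ∈ Sp (Gd (X n i) (i * η) i), d c = 0 →
      ∃ b ∈ Sp (Gd (X n (i + 1)) ((i + 1 : ℕ) * η) (i + 1)), d b = c := fun i hi c hc dc => by
    have := fillX ⟨i, hi⟩ (δ := i * η) (by positivity) hη hc dc
    rwa [show (i : ℝ) * η + η = (i + 1 : ℕ) * η by push_cast; ring] at this
  have g0 : e [] ∈ Sp (Gd (X n 0) ((0 : ℕ) * η) 0) := e_mem ⟨rfl, by simp, by simp⟩
  induction K with
  | zero =>
    obtain ⟨b, hb, e1⟩ := st 0 hK _ g0 d_nil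
    refine ⟨fun i => if i = 0 then e [] else b, rfl, e1, fun i hi => ?_, fun i _ _ => by omega⟩
    obtain rfl | rfl : i = 0 ∨ i = 1 := by omega
    exacts [g0, hb]
  | succ K ih =>
    obtain ⟨a, a0, a1, aG, ad⟩ := ih (by omega)
    have nat := θ_nat (Gd_rot (i := K + 1) (k := K + 1) (δ := (K + 1 : ℕ) * η) n1) d
      (fun l _ => (mp_d _ _).symm) (K + 1) (aG _ le_rfl)
    obtain ⟨b, hb, e1⟩ := st (K + 1) hK _ nat.2 (by
      rw [nat.1]
      rcases K with _ | K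
      · rw [a1, a0]; simp [θ]
      · rw [ad _ (by omega) le_rfl, ← Module.End.mul_apply, θθ t5]; rfl)
    refine ⟨Function.update a (K + 2) b, by simp [a0], by simp [a1], fun i hi => ?_,
      fun i h1 hi => ?_⟩
    · by_cases c : i = K + 2
      · subst c; rw [Function.update_self]; exact hb
      · rw [Function.update_of_ne c]; exact aG i (by omega)
    · rw [Function.update_of_ne (by omega : i ≠ K + 2)]
      by_cases c : i = K + 1
      · subst c; simpa using e1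
      · rw [Function.update_of_ne (by omega)]; exact ad i h1 (by omega)

def sh (F : Finset (ZMod 5)) : Finset (ZMod 5) := Finset.univ.filter fun g => g + 1 ∈ F

def ψ (F : Finset (ZMod 5)) : ZMod 5 := -(∑ g ∈ F, g) * (F.card : ZMod 5) ^ 3

lemma sh1 : ∀ F : Finset (ZMod 5), F ≠ ∅ → F ≠ Finset.univ → ψ (sh F) = ψ F + 1 := by
  decide +kernel

lemma sh2 : ∀ F : Finset (ZMod 5), (sh F = ∅ ↔ F = ∅) ∧ (sh F = Finset.univ ↔ F = Finset.univ) ∧
    F.card ≤ 5 := by
  decide +kernel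

lemma sh3 {F G : Finset (ZMod 5)} : sh F ⊆ sh G ↔ F ⊆ G :=
  ⟨fun h g hg => by simpa [sh] using h (x := g - 1) (by simpa [sh]),
    fun h g hg => by simpa [sh] using h (by simpa [sh] using hg)⟩

theorem bu5 {n : ℕ} (hn : 12 ≤ n) {ω : ℂ} (hω : ω ^ 5 = 1)
    (R : (Fin n → ℂ) → Fin 2 → ZMod 5 → ℝ) (hc : ContinuousOn R (X n n))
    (he : ∀ z ∈ X n n, ∀ j g, R (ω • z) j g = R z j (g + 1))
    (hs : ∀ z ∈ X n n, ∀ j, ∑ g, R z j g = 0) : ∃ z ∈ X n n, R z = 0 := by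
  classical
  by_contra! hz
  have n1 : ‖ω‖ = 1 := Complex.norm_eq_one_of_pow_eq_one hω (by norm_num)
  have cp : IsCompact (X n n) := by
    refine Metric.isCompact_of_isClosed_isBounded ?_
      (isBounded_iff_forall_norm_le.2 ⟨1, fun z hz => X_norm hz⟩)
    rw [show X n n = {z | ∑ j, ‖z j‖ = 1} from Set.ext fun z =>
      ⟨fun h => h.1, fun h => ⟨h, fun j hj => absurd j.2 (by omega)⟩⟩]
    exact isClosed_eq (by fun_prop) continuous_const
  obtain ⟨ν, ν0, hν⟩ := cp.exists_forall_le' hc.norm fun z h => norm_pos_iff.2 (hz z h)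
  have hμ : ∀ z ∈ X n n, ∃ j g, ν / 5 ≤ R z j g := by
    intro z h
    by_contra! k
    refine (hν z h).not_gt ((pi_norm_lt_iff ν0).2 fun j => (pi_norm_lt_iff ν0).2 fun g => ?_)
    have e1 := hs z h j
    rw [← Finset.add_sum_erase _ _ (Finset.mem_univ g)] at e1
    have := Finset.sum_le_card_nsmul (Finset.univ.erase g) (R z j) (ν / 5) fun x _ => (k j x).le
    rw [Finset.card_erase_of_mem (Finset.mem_univ g), Finset.card_univ, ZMod.card] at this
    have := k j g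
    rw [Real.norm_eq_abs, abs_lt]
    simp only [nsmul_eq_mul, Nat.add_one_sub_one, Nat.cast_ofNat] at *
    constructor <;> linarith
  obtain ⟨δ, δ0, hδ⟩ := Metric.uniformContinuousOn_iff_le.1
    (cp.uniformContinuousOn_of_continuous hc) (ν / 10) (by positivity)
  obtain ⟨a, a0, a1, aG, ad⟩ := chains (n := n) hω (η := δ / 12) (by positivity) 11 hn
  let V : List (Fin n → ℂ) → Fin 2 → Finset (ZMod 5) := fun l j =>
    Finset.univ.filter fun g => ∃ z ∈ l, ν / 5 ≤ R z j g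
  have mo : ∀ p q : Finset (ZMod 5) × Finset (ZMod 5),
      Prod.map sh sh p ≤ Prod.map sh sh q ↔ p ≤ q := fun p q => by
    simp only [Prod.le_def, Prod.map_fst, Prod.map_snd, Finset.le_eq_subset, sh3]
  refine dold (ω • ·) (Prod.map sh sh) (fun p q h => lt_iff_lt_of_le_iff_le' (mo _ _) (mo _ _) |>.2 h)
    (fun p q h => le_antisymm ((mo _ _).1 h.le) ((mo _ _).1 h.ge)) (fun l => (V l 0, V l 1))
    {l | l ∈ Gd (X n n) δ l.length} {q | (q.1 ≠ ∅ ∨ q.2 ≠ ∅) ∧ q.1 ≠ .univ ∧ q.2 ≠ .univ}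
    (fun q => if q.1 = ∅ then ψ q.2 else ψ q.1) 11 (fun l hl m hm => ⟨⟨rfl, fun x hx =>
      hl.2.1 x (hm.subset hx), fun x hx y hy => hl.2.2 x (hm.subset hx) y (hm.subset hy)⟩, ?_⟩)
    (fun l hl => by simpa using Gd_rot n1 l hl) (fun l hl => ?_) (fun l hl h0 => ?_)
    (fun q hq => ?_) ?_ a a0 a1 (fun i hi => Sp_mono ?_ (aG i hi)) ad
  · have : ∀ j, V m j ⊆ V l j := fun j g => by
      simp only [V, Finset.mem_filter, Finset.mem_univ, true_and]
      exact fun ⟨z, h1, h2⟩ => ⟨z, hm.subset h1, h2⟩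
    exact ⟨this 0, this 1⟩
  · have : ∀ j, V (l.map (ω • ·)) j = sh (V l j) := fun j => by
      ext g
      simp only [V, sh, Finset.mem_filter, Finset.mem_univ, true_and, List.mem_map]
      constructor
      · rintro ⟨_, ⟨z, h1, rfl⟩, h2⟩
        exact ⟨z, h1, he z (hl.2.1 z h1) j g ▸ h2⟩
      · rintro ⟨z, h1, h2⟩
        exact ⟨_, ⟨z, h1, rfl⟩, (he z (hl.2.1 z h1) j g).symm ▸ h2⟩
    simp [this]
  · obtain ⟨x, hx⟩ := List.exists_mem_of_ne_nil l h0
    have : ∀ j, V l j ≠ .univ := fun j h => by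
      refine (Finset.sum_pos (fun g _ => ?_) Finset.univ_nonempty).ne' (hs x (hl.2.1 x hx) j)
      obtain ⟨z, h1, h2⟩ := (Finset.mem_filter.1 (h ▸ Finset.mem_univ g : g ∈ V l j)).2
      have := ((dist_le_pi_dist (R z j) (R x j) g).trans (dist_le_pi_dist (R z) (R x) j)).trans
        (hδ z (hl.2.1 z h1) x (hl.2.1 x hx) (hl.2.2 z h1 x hx))
      rw [Real.dist_eq, abs_le] at this
      linarith
    refine ⟨?_, this 0, this 1⟩
    obtain ⟨j, g, h⟩ := hμ x (hl.2.1 x hx)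
    have : V l j ≠ ∅ := Finset.ne_empty_of_mem (Finset.mem_filter.2 ⟨Finset.mem_univ g, x, hx, h⟩)
    fin_cases j
    exacts [Or.inl this, Or.inr this]
  · refine ⟨by simpa only [Set.mem_setOf_eq, Prod.map_fst, Prod.map_snd, ne_eq, (sh2 _).1,
      (sh2 _).2.1] using hq, ?_⟩
    simp only [Prod.map_fst, Prod.map_snd, (sh2 _).1]
    split_ifs with c
    exacts [sh1 _ (hq.1.resolve_left (not_not.2 c)) hq.2.2, sh1 _ c hq.2.1]
  · refine Set.eq_empty_of_forall_notMem fun m hm => ?_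
    have n0 : (m.map fun q => q.1.card + q.2.card).Nodup := by
      refine List.pairwise_map.2 (hm.2.1.imp fun {p q} h => ?_)
      have a := Finset.card_le_card h.le.1
      have b := Finset.card_le_card h.le.2
      intro c
      exact h.ne (Prod.ext (Finset.eq_of_subset_of_card_le h.le.1 (by omega))
        (Finset.eq_of_subset_of_card_le h.le.2 (by omega)))
    have := (List.subperm_of_subset n0 (l₂ := List.range 11) fun v hv => by
      obtain ⟨q, _, rfl⟩ := List.mem_map.1 hv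
      have := (sh2 q.1).2.2
      have := (sh2 q.2).2.2
      simp; omega).length_le
    simp [hm.1] at this
  · rintro l ⟨l1, l2, l3⟩
    refine ⟨⟨rfl, fun x hx => ⟨(l2 x hx).1, fun j hj => absurd j.2 (by omega)⟩, fun x hx y hy =>
      (l3 x hx y hy).trans ?_⟩, l1⟩
    have : (i : ℝ) ≤ 12 := by exact_mod_cast hi
    nlinarith

end Pool.Agent.H.MP_21eb72_gt
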