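import Pool.Agent.H.MP_21eb72_gt.B

open scoped ContDiff

namespace Pool.Agent.H.MP_21eb72_gt

lemma exJ {m : ℕ} (hm : 24 ≤ m) : ∃ J : (Fin 12 → ℂ) →ₗ[ℝ] (Fin m → ℝ),
    (∀ z, J z = 0 → z = 0) ∧ ∀ z i, |J z i| ≤ ‖z‖ := by
  refine ⟨LinearMap.pi fun i : Fin m => if h : (i : ℕ) < 12 then
    Complex.reLm ∘ₗ LinearMap.proj ⟨i, h⟩ else if h' : (i : ℕ) < 24 then
    Complex.imLm ∘ₗ LinearMap.proj ⟨i - 12, by omega⟩ else 0, fun z hz => ?_, fun z i => ?_⟩
  · ext1 j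
    have a := congrFun hz ⟨j, by omega⟩
    have b := congrFun hz ⟨j + 12, by omega⟩
    have c : (j : ℕ) + 12 < 24 := by omega
    apply Complex.ext
    · simpa using a
    · simpa [c] using b
  · rw [LinearMap.pi_apply]
    split_ifs
    · exact (Complex.abs_re_le_norm _).trans (norm_le_pi_norm z _)
    · exact (Complex.abs_im_le_norm _).trans (norm_le_pi_norm z _)
    · simp

theorem main : ∃ M : ℕ, ∀ m : ℕ, M ≤ m → ∀ f : (Fin m → ℝ) → (Fin 2 → ℝ),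
      ContDiffOn ℝ ∞ f {x : Fin m → ℝ | ∀ i, x i ∈ Set.Ioo (-1 : ℝ) 1} →
      ∃ P : AffineSubspace ℝ ((Fin m → ℝ) × (Fin 2 → ℝ)),
        Module.finrank ℝ P.direction = 2 ∧
        ∃ S : Finset (Fin m → ℝ), S.card = 5 ∧
          ∀ x ∈ S, (∀ i, x i ∈ Set.Ioo (-1 : ℝ) 1) ∧ (x, f x) ∈ P := by
  classical
  refine ⟨24, fun m hm f hf => ?_⟩
  obtain ⟨J, J0, J1⟩ := exJ hm
  obtain ⟨ζ, pr⟩ : ∃ ζ : ℂ, IsPrimitiveRoot ζ 5 := ⟨_, Complex.isPrimitiveRoot_exp 5 (by norm_num)⟩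
  have h5 := pr.pow_eq_one
  have n1 : ‖ζ‖ = 1 := Complex.norm_eq_one_of_pow_eq_one h5 (by norm_num)
  have w1 : ζ ≠ 1 := pr.ne_one (by norm_num)
  have cj : (starRingEnd ℂ) ζ = ζ ^ 4 := by
    have := Complex.mul_conj' ζ
    rw [n1] at this
    linear_combination (ζ ^ 4) * this - (starRingEnd ℂ) ζ * h5 + ζ ^ 4 * (by norm_num :
      ((1 : ℝ) : ℂ) ^ 2 = 1)
  have im0 : ζ.im ≠ 0 := fun h => by
    have e1 := Complex.conj_eq_iff_im.2 h
    rw [cj] at e1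
    exact pr.pow_ne_one_of_pos_of_lt (l := 3) (by norm_num) (by norm_num)
      (by linear_combination ζ ^ 4 * e1 - (ζ ^ 3 - 1) * h5)
  obtain ⟨c, hc⟩ : ∃ c : ℝ, (c : ℂ) = ζ + ζ ^ 4 := ⟨2 * ζ.re, by
    rw [← cj, Complex.add_conj]⟩
  have c0 : c ≠ 0 := fun h => w1 (by
    rw [h] at hc
    linear_combination (ζ ^ 4 - ζ ^ 2) * hc + (1 + ζ ^ 3 - ζ) * h5 + (ζ ^ 4 - ζ ^ 2) * (by simp :
      (0 : ℂ) = ((0 : ℝ) : ℂ)))
  let x : (Fin 12 → ℂ) → ZMod 5 → Fin m → ℝ := fun z g => J (((1 / 2) * ζ ^ g.val) • z)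
  have xs : ∀ z g, x (ζ • z) g = x z (g + 1) := fun z g => by
    simp only [x, smul_smul, ZMod.val_add, ← pow_eq_pow_mod _ h5, pow_add, mul_assoc]
    rw [show (1 : ZMod 5).val = 1 from rfl, pow_one]
  have xc : ∀ z ∈ X 12 12, ∀ g i, x z g i ∈ Set.Ioo (-1 : ℝ) 1 := fun z hz g i => by
    have := J1 (((1 / 2) * ζ ^ g.val) • z) i
    have := X_norm hz
    simp only [norm_smul, norm_mul, norm_pow, n1, one_pow, norm_div, norm_one,
      Complex.norm_ofNat] at *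
    exact abs_lt.1 (by linarith)
  have yc : ∀ g j, ContinuousOn (fun z => f (x z g) j) (X 12 12) := fun g j =>
    (continuous_apply j).comp_continuousOn (hf.continuousOn.comp
      (J.continuous_of_finiteDimensional.comp (continuous_const_smul _)).continuousOn
      fun z hz => xc z hz g)
  obtain ⟨z, hz, hR⟩ := bu5 le_rfl h5 (fun z j g => f (x z (g + 2)) j - f (x z (g + 3)) j -
    c * (f (x z (g + 1)) j - f (x z (g + 4)) j))
    (continuousOn_pi.2 fun j => continuousOn_pi.2 fun g =>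
      ((yc _ j).sub (yc _ j)).sub (continuousOn_const.mul ((yc _ j).sub (yc _ j))))
    (fun z _ j g => by simp only [xs, add_right_comm g 1]) (fun z _ j => by
      have : ∀ k, ∑ g, f (x z (g + k)) j = ∑ g, f (x z g) j := fun k =>
        Equiv.sum_comp (Equiv.addRight k) fun g => f (x z g) j
      simp [Finset.sum_sub_distrib, ← Finset.mul_sum, this])
  have z0 : z ≠ 0 := by rintro rfl; simpa using hz.1
  have Jz : ∀ a : ℂ, J (a • z) = 0 → a = 0 := fun a h => (smul_eq_zero.1 (J0 _ h)).resolve_right z0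
  let F : ZMod 5 → (Fin m → ℝ) × (Fin 2 → ℝ) := fun g => (x z g, f (x z g))
  have x0 : x z 0 = J ((1 / 2 * ζ ^ 0) • z) := rfl
  have x1 : x z 1 = J ((1 / 2 * ζ ^ 1) • z) := rfl
  have x2 : x z 2 = J ((1 / 2 * ζ ^ 2) • z) := rfl
  have x3 : x z 3 = J ((1 / 2 * ζ ^ 3) • z) := rfl
  have x4 : x z 4 = J ((1 / 2 * ζ ^ 4) • z) := rfl
  have rs : ∀ (r : ℝ) (a : ℂ), r • J (a • z) = J ((r * a) • z) := fun r a => by
    rw [← map_smul, mul_smul, Complex.coe_smul]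
  have r1 : F 0 - F 1 = c • (F 4 - F 2) := by
    refine Prod.ext ?_ (funext fun j => ?_)
    · change x z 0 - x z 1 = c • (x z 4 - x z 2)
      rw [x0, x1, x2, x4, ← map_sub, ← map_sub, ← sub_smul, ← sub_smul, rs, hc]
      congr 2
      linear_combination -(1 / 2) * (1 + ζ ^ 3 - ζ) * h5
    · exact sub_eq_zero.1 (congrFun (congrFun hR j) 3)
  have r2 : F 1 - F 2 = c • (F 0 - F 3) := by
    refine Prod.ext ?_ (funext fun j => ?_)
    · change x z 1 - x z 2 = c • (x z 0 - x z 3)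
      rw [x0, x1, x2, x3, ← map_sub, ← map_sub, ← sub_smul, ← sub_smul, rs, hc]
      congr 2
      linear_combination (1 / 2) * ζ ^ 2 * h5
    · exact sub_eq_zero.1 (congrFun (congrFun hR j) 4)
  have li : LinearIndependent ℝ ![F 1 - F 0, F 2 - F 1] := by
    refine LinearIndependent.pair_iff.2 fun a b h => ?_
    have h' : a • (x z 1 - x z 0) + b • (x z 2 - x z 1) = 0 := congrArg Prod.fst h
    rw [x0, x1, x2, ← map_sub, ← map_sub, ← sub_smul, ← sub_smul, rs, rs, ← map_add,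
      ← add_smul] at h'
    have e1 : (a : ℂ) + b * ζ = 0 := mul_left_cancel₀ (sub_ne_zero.2 w1) (by
      linear_combination 2 * Jz _ h')
    have e2 : b = 0 := by simpa [im0] using congrArg Complex.im e1
    exact ⟨by simpa [e2] using e1, e2⟩
  refine ⟨AffineSubspace.mk' (F 0) (Submodule.span ℝ (Set.range ![F 1 - F 0, F 2 - F 1])), by
    rw [AffineSubspace.direction_mk', finrank_span_eq_card li]; simp,
    Finset.univ.image (x z), ?_, ?_⟩
  · rw [Finset.card_image_of_injective, Finset.card_univ, ZMod.card]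
    intro g h e1
    have e2 : J ((1 / 2 * ζ ^ g.val - 1 / 2 * ζ ^ h.val) • z) = 0 := by
      rw [sub_smul, map_sub]; exact sub_eq_zero.2 e1
    exact ZMod.val_injective 5 (pr.pow_inj g.val_lt h.val_lt (by linear_combination 2 * Jz _ e2))
  · intro y hy
    obtain ⟨g, _, rfl⟩ := Finset.mem_image.1 hy
    refine ⟨xc z hz g, ?_⟩
    change F g ∈ _
    rw [AffineSubspace.mem_mk', vsub_eq_sub, Matrix.range_cons_cons_empty, Submodule.mem_span_pair]
    have r3 : F 4 - F 2 = c⁻¹ • (F 0 - F 1) := by rw [r1, inv_smul_smul₀ c0]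
    have r4 : F 0 - F 3 = c⁻¹ • (F 1 - F 2) := by rw [r2, inv_smul_smul₀ c0]
    rcases (by decide : ∀ x : ZMod 5, x = 0 ∨ x = 1 ∨ x = 2 ∨ x = 3 ∨ x = 4) g with
      rfl | rfl | rfl | rfl | rfl
    · exact ⟨0, 0, by simp⟩
    · exact ⟨1, 0, by simp⟩
    · exact ⟨1, 1, by simp⟩
    · exact ⟨0, c⁻¹, by rw [← neg_sub (F 0) (F 3), r4]; module⟩
    · exact ⟨1 - c⁻¹, 1, by rw [eq_add_of_sub_eq r3]; module⟩

end Pool.Agent.H.MP_21eb72_gt
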